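import Pool.Agent.H.MP_2c613a_co.Defs

set_option autoImplicit false

namespace Pool.Agent.Results.MP_2c613a_co.Infinite

open Pool.Agent.H.MP_2c613a_co Finset

def sd (s m : ℕ) : Option (Fin (m + 2) × Fin (s + 2)) → Fin (s + 3)
  | none => 0
  | some p => p.2.succ

def ed (s m : ℕ) (a : Fin (m + 2)) : Finset (Option (Fin (m + 2) × Fin (s + 2))) :=
  univ.filter (fun v => ∀ p, v = some p → p.1 = a)

theorem mem_ed {s m : ℕ} {a : Fin (m + 2)} {p : Fin (m + 2) × Fin (s + 2)} :
    some p ∈ ed s m a ↔ p.1 = a := by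
  simp only [ed, mem_filter, mem_univ, true_and, Option.some.injEq]
  exact ⟨fun h => h p rfl, fun h q e => e ▸ h⟩

theorem none_ed {s m : ℕ} {a : Fin (m + 2)} : none ∈ ed s m a := by simp [ed]

theorem hyp (s m : ℕ) : Hyp (sd s m) (univ.image (ed s m)) := by
  refine ⟨fun e he i => ?_, fun v => ?_, fun e he f hf => ?_⟩
  · obtain ⟨a, -, rfl⟩ := mem_image.1 he
    rw [card_eq_one]
    induction i using Fin.cases with
    | zero =>
      refine ⟨none, ?_⟩
      ext v
      cases v with
      | none => simp [Side, sd, none_ed]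
      | some p => simp [Side, sd]
    | succ j =>
      refine ⟨some (a, j), ?_⟩
      ext v
      cases v with
      | none => simp [Side, sd, (Fin.succ_ne_zero j).symm]
      | some p => simp [Side, sd, mem_ed, Prod.ext_iff]
  · cases v with
    | none => exact ⟨_, mem_image_of_mem _ (mem_univ 0), none_ed⟩
    | some p => exact ⟨_, mem_image_of_mem _ (mem_univ p.1), mem_ed.2 rfl⟩
  · obtain ⟨a, -, rfl⟩ := mem_image.1 he
    obtain ⟨b, -, rfl⟩ := mem_image.1 hf
    exact ⟨none, mem_inter.2 ⟨none_ed, none_ed⟩⟩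

theorem has (s m : ℕ) : NT (sd s m) (univ.image (ed s m))
    (univ.image (fun a => some (a, if a = 0 then 0 else 1))) := by
  refine ⟨fun e he => ?_, fun e he h => ?_, fun i h => ?_⟩
  · obtain ⟨a, -, rfl⟩ := mem_image.1 he
    exact ⟨_, mem_inter.2 ⟨mem_ed.2 rfl, mem_image_of_mem _ (mem_univ a)⟩⟩
  · obtain ⟨a, -, rfl⟩ := mem_image.1 he
    simpa using h none_ed
  · induction i using Fin.cases with
    | zero => simpa using h (show none ∈ Side (sd s m) 0 by simp [Side, sd])
    | succ j =>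
      have h0 := h (show some (0, j) ∈ Side (sd s m) j.succ by simp [Side, sd])
      have h1 := h (show some (1, j) ∈ Side (sd s m) j.succ by simp [Side, sd])
      simp at h0 h1
      exact absurd (h0.trans h1.symm) (by simp)

theorem big (s m : ℕ) (C : Finset (Option (Fin (m + 2) × Fin (s + 2))))
    (h : NT (sd s m) (univ.image (ed s m)) C) : m + 2 ≤ C.card := by
  have hn : none ∉ C := fun hc => h.2.2 0 fun v hv => by
    cases v with
    | none => exact hc
    | some p => simp [Side, sd] at hv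
  have : ∀ a, ∃ p, some p ∈ C ∧ p.1 = a := fun a => by
    obtain ⟨v, hv⟩ := h.1 _ (mem_image_of_mem _ (mem_univ a))
    cases v with
    | none => exact absurd (mem_inter.1 hv).2 hn
    | some p => exact ⟨p, (mem_inter.1 hv).2, mem_ed.1 (mem_inter.1 hv).1⟩
  choose g hg hg' using this
  have := card_le_card_of_injOn (s := univ) (t := C) (fun a => some (g a)) (fun a _ => hg a)
    (fun a _ b _ e => by rw [← hg' a, ← hg' b, Option.some.inj e])
  simpa using this

section
variable {V : Type} [Fintype V] [DecidableEq V] {r : ℕ} {side : V → Fin r}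
  {E : Finset (Finset V)}

theorem uniq (h : Hyp side E) {e : Finset V} (he : e ∈ E) {x y : V} (hx : x ∈ e) (hy : y ∈ e)
    (hxy : side x = side y) : x = y :=
  card_le_one.1 (h.1 e he (side y)).le x (by simp [Side, hx, hxy]) y (by simp [Side, hy])

theorem card_edge (h : Hyp side E) {e : Finset V} (he : e ∈ E) : e.card = r := by
  rw [card_eq_sum_card_fiberwise (f := side) (t := univ) (fun _ _ => by simp)]
  have : ∀ i, (e.filter (fun v => side v = i)).card = 1 := fun i => by
    rw [← h.1 e he i]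
    exact congrArg card (by ext; simp [Side])
  simp [this]

/-- branching: few edges when every edge is a minimal cover -/
theorem branch (h : Hyp side E)
    (hm : ∀ e ∈ E, ∀ x ∈ e, ¬ ∀ f ∈ E, (f ∩ e.erase x).Nonempty) (k : ℕ) :
    ∀ S : Finset V, S.card + k = r → (E.filter (fun e => S ⊆ e)).card ≤ r ^ k := by
  induction k with
  | zero =>
    intro S hS
    refine card_le_one.2 fun a ha b hb => ?_
    obtain ⟨ha1, ha2⟩ := mem_filter.1 ha
    obtain ⟨hb1, hb2⟩ := mem_filter.1 hb
    rw [← eq_of_subset_of_card_le ha2 (by rw [card_edge h ha1]; omega),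
      ← eq_of_subset_of_card_le hb2 (by rw [card_edge h hb1]; omega)]
  | succ k ih =>
    intro S hS
    rcases (E.filter (fun e => S ⊆ e)).eq_empty_or_nonempty with h0 | ⟨e, he⟩
    · rw [h0]; simp
    obtain ⟨he1, he2⟩ := mem_filter.1 he
    obtain ⟨x, hx, hxS⟩ := exists_mem_notMem_of_card_lt_card
      (show S.card < e.card by rw [card_edge h he1]; omega)
    have := hm e he1 x hx
    push Not at this
    obtain ⟨f, hf, hfe⟩ := this
    have hfS : ∀ y ∈ f, y ∉ S := fun y hy hyS => by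
      have : y ∈ f ∩ e.erase x := mem_inter.2 ⟨hy, mem_erase.2 ⟨fun e => hxS (e ▸ hyS), he2 hyS⟩⟩
      rw [hfe] at this
      simp at this
    have hsub : E.filter (fun e => S ⊆ e) ⊆
        f.biUnion (fun y => E.filter (fun e => insert y S ⊆ e)) := fun g hg => by
      obtain ⟨hg1, hg2⟩ := mem_filter.1 hg
      obtain ⟨y, hy⟩ := h.2.2 f hf g hg1
      exact mem_biUnion.2 ⟨y, (mem_inter.1 hy).1,
        mem_filter.2 ⟨hg1, insert_subset (mem_inter.1 hy).2 hg2⟩⟩
    refine (card_le_card hsub).trans (card_biUnion_le.trans ((sum_le_sum fun y hy =>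
      ih (insert y S) (by rw [card_insert_of_notMem (hfS y hy)]; omega)).trans ?_))
    rw [sum_const, card_edge h hf, smul_eq_mul, pow_succ']

theorem bound (hr : 1 ≤ r) (h : Hyp side E) (h2 : ∀ i, 2 ≤ (Side side i).card)
    (hC : ∃ C, NT side E C) : ∃ C, NT side E C ∧ C.card ≤ r ^ r := by
  by_cases hm : ∀ e ∈ E, ∀ x ∈ e, ¬ ∀ f ∈ E, (f ∩ e.erase x).Nonempty
  · obtain ⟨C, hC⟩ := hC
    have hE := branch h hm r ∅ (by simp)
    simp only [empty_subset, filter_true] at hE
    choose g hg using hC.1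
    have hs : E.attach.image (fun e => g e.1 e.2) ⊆ C := fun v hv => by
      obtain ⟨e, -, rfl⟩ := mem_image.1 hv
      exact (mem_inter.1 (hg e.1 e.2)).2
    refine ⟨_, ⟨fun e he => ⟨g e he, mem_inter.2 ⟨(mem_inter.1 (hg e he)).1,
      mem_image.2 ⟨⟨e, he⟩, mem_attach _ _, rfl⟩⟩⟩, fun e he hh => hC.2.1 e he (hh.trans hs),
      fun i hh => hC.2.2 i (hh.trans hs)⟩, card_image_le.trans (by simpa using hE)⟩
  · obtain ⟨e, he, x, hx, hc⟩ : ∃ e ∈ E, ∃ x ∈ e, ∀ f ∈ E, (f ∩ e.erase x).Nonempty := by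
      by_contra hn
      exact hm fun e he x hx hc => hn ⟨e, he, x, hx, hc⟩
    have hce : (e.erase x).card < r := by rw [← card_edge h he]; exact card_erase_lt_of_mem hx
    refine ⟨e.erase x, ⟨hc, fun f hf hh => ?_, fun i hh => ?_⟩,
      hce.le.trans (Nat.le_self_pow (by omega) r)⟩
    · have := card_le_card hh
      rw [card_edge h hf] at this
      omega
    · have := card_le_card (subset_inter (hh.trans (erase_subset _ _)) (Subset.refl _))
      have a := h.1 e he i
      have b := h2 i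
      omega

theorem two {side : V → Fin 2} (h : Hyp side E) (C : Finset V) : ¬ NT side E C := by
  rintro ⟨h1, -, h3⟩
  obtain ⟨x, hx, hxC⟩ := not_subset.1 (h3 0)
  obtain ⟨y, hy, hyC⟩ := not_subset.1 (h3 1)
  simp only [Side, mem_filter, mem_univ, true_and] at hx hy
  obtain ⟨e, he, hxe⟩ := h.2.1 x
  obtain ⟨f, hf, hyf⟩ := h.2.1 y
  obtain ⟨y', hy'⟩ := h1 e he
  obtain ⟨x', hx'⟩ := h1 f hf
  obtain ⟨z, hz⟩ := h.2.2 e he f hf
  rw [mem_inter] at hy' hx' hz
  have a1 : side y' ≠ side x := fun e' => hxC (uniq h he hy'.1 hxe e' ▸ hy'.2)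
  have a2 : side x' ≠ side y := fun e' => hyC (uniq h hf hx'.1 hyf e' ▸ hx'.2)
  by_cases hz0 : side z = side x
  · have e1 := uniq h he hz.1 hxe hz0
    have e2 := uniq h hf hz.2 hx'.1 (by omega)
    exact hxC (e1 ▸ e2 ▸ hx'.2)
  · have e1 := uniq h hf hz.2 hyf (by omega)
    have e2 := uniq h he hz.1 hy'.1 (by omega)
    exact hyC (e1 ▸ e2 ▸ hy'.2)

end

theorem result :
    (∀ r : ℕ, 3 ≤ r → ∀ k : ℕ, ∃ (V : Type) (_ : Fintype V) (_ : DecidableEq V)
      (side : V → Fin r) (E : Finset (Finset V)), Hyp side E ∧ (∃ C, NT side E C) ∧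
        ∀ C, NT side E C → k < C.card) ∧
    (∀ (V : Type) [Fintype V] [DecidableEq V] (side : V → Fin 2) (E : Finset (Finset V)),
      Hyp side E → ¬ ∃ C, NT side E C) ∧
    (∀ r : ℕ, 2 ≤ r → ∀ (V : Type) [Fintype V] [DecidableEq V] (side : V → Fin r)
      (E : Finset (Finset V)), Hyp side E → (∀ i, 2 ≤ (Side side i).card) →
        (∃ C, NT side E C) → ∃ C, NT side E C ∧ C.card ≤ r ^ r) := by
  refine ⟨fun r hr k => ?_, fun V _ _ side E h hC => ?_,
    fun r hr V _ _ side E h h2 hC => bound (by omega) h h2 hC⟩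
  · obtain ⟨s, rfl⟩ : ∃ s, r = s + 3 := ⟨r - 3, by omega⟩
    exact ⟨_, inferInstance, inferInstance, sd s k, _, hyp s k, ⟨_, has s k⟩,
      fun C hC => by have := big s k C hC; omega⟩
  · obtain ⟨C, hC⟩ := hC
    exact two h C hC

end Pool.Agent.Results.MP_2c613a_co.Infinite
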